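import Mathlib
import Pool.Agent.TH344.BF.Main
import Pool.Agent.TH826.PT.Fam

/-!
# Tate-Shafarevich groups of products of elliptic curves in families given by split binary forms

Let `F_0, F_1, F_2` be binary forms with integer coefficients, each the product of a constant and of
odd powers of `n` linear forms, `n ≥ 2` even, all the `3 n` linear forms pairwise non-proportional,
and `F_0 - F_1 = F_2`. The curves `y² = x (x - F_0 (u, v)) (x - F_1 (u, v))` are the fibres of an
elliptic surface with full 2-torsion and nonconstant `j`-invariant. For `g` families of this kind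
let `A_(u, v)` be the `g`-dimensional abelian variety over `ℚ` that is the product of the fibres of
the `g` surfaces. There is one set `Z` of pairs of density zero such that over all the other coprime
pairs `(u, v)` all the moments of `2 ^ rank * #Ш(A_(u, v))[2 ^ k] ^ (1 / k)` are bounded, uniformly in
`k`. So the upper density of the pairs for which the sum of the rank of `A_(u, v)` and of the corank
of the 2-primary part of `Ш(A_(u, v))` is at least `r` decays faster than any exponential `B ^ (-r)`.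

The Tate-Shafarevich group of a product of elliptic curves, by continuous cocycles of the absolute
Galois groups, is that of `Pool.Agent.TH826.PT.Sha`.
-/

set_option autoImplicit false

namespace Pool.Agent.Results.MP_a43263_nt.BinaryFormProducts

open Finset Filter Topology

open Pool.Agent.TH826.PT (ShaP ShaTorP HasDivP rkP)

/-- the curve `y² = x (x - A) (x - B)` over `ℚ` -/
def E (A B : ℤ) : WeierstrassCurve ℚ := ⟨0, -((A : ℚ) + B), 0, (A : ℚ) * B, 0⟩

/-- the value at `(u, v)` of the binary form `F_k = a_k ∏_i l_(k, i) ^ m_(k, i)`, where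
`l (k, i) = (α, β)` stands for the linear form `α u + β v` -/
def form {n : ℕ} (l : Fin 3 × Fin n → ℤ × ℤ) (m : Fin 3 × Fin n → ℕ) (a : Fin 3 → ℤ) (k : Fin 3)
    (u v : ℤ) : ℤ :=
  a k * ∏ i : Fin n, ((l (k, i)).1 * u + (l (k, i)).2 * v) ^ m (k, i)

/-- A family: an even number `n ≥ 2`, pairwise non-proportional linear forms `l_(k, i)`, odd
exponents `m_(k, i)` and constants `a_k ≠ 0` (`k = 0, 1, 2`, `1 ≤ i ≤ n`), such that the binary forms
`F_k = a_k ∏_i l_(k, i) ^ m_(k, i)` satisfy `F_0 - F_1 = F_2`. -/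
structure Family where
  /-- the number of the linear forms in each `F_k` -/
  n : ℕ
  /-- the linear forms -/
  l : Fin 3 × Fin n → ℤ × ℤ
  /-- the exponents -/
  m : Fin 3 × Fin n → ℕ
  /-- the constants -/
  a : Fin 3 → ℤ
  pos : 0 < n
  even : Even n
  odd : ∀ j, Odd (m j)
  ne : ∀ k, a k ≠ 0
  indep : ∀ i j, i ≠ j → (l i).1 * (l j).2 ≠ (l j).1 * (l i).2
  sub : ∀ u v : ℤ, form l m a 0 u v - form l m a 1 u v = form l m a 2 u v

/-- the value of `F_k` at the pair `t` -/
def Family.val (F : Family) (k : Fin 3) (t : ℤ × ℤ) : ℤ := form F.l F.m F.a k t.1 t.2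

/-- the curve `y² = x (x - F_0 (t)) (x - F_1 (t))` -/
def Family.curve (F : Family) (t : ℤ × ℤ) : WeierstrassCurve ℚ := E (F.val 0 t) (F.val 1 t)

variable {g : ℕ}

/-- the factors of the abelian variety `A_t` -/
def AV (F : Fin g → Family) (t : ℤ × ℤ) : Fin g → WeierstrassCurve ℚ := fun j => (F j).curve t

open Classical in
/-- the coprime pairs `(u, v)` with `|u| ≤ X`, `|v| ≤ X` at which none of the forms vanishes -/
noncomputable def Pairs (F : Fin g → Family) (X : ℕ) : Finset (ℤ × ℤ) :=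
  (Icc (-(X : ℤ)) X ×ˢ Icc (-(X : ℤ)) X).filter (fun t => IsCoprime t.1 t.2 ∧
    ∀ j k, (F j).val k t ≠ 0)

/-- the proportion of the pairs of `S` among the pairs of height at most `X` -/
noncomputable def proportion (F : Fin g → Family) (S : Set (ℤ × ℤ)) (X : ℕ) : ℝ :=
  (((Pairs F X : Set (ℤ × ℤ)) ∩ S).ncard : ℝ) / ((Pairs F X).card : ℝ)

/-- the upper density of a set of pairs -/
noncomputable def upperDensity (F : Fin g → Family) (S : Set (ℤ × ℤ)) : ℝ :=
  limsup (proportion F S) atTop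

/-- The pairs with large groups: `(2 ^ k) ^ rank * #Ш(A_t)[2 ^ k] ≥ 2 ^ (k r)` for some `k ≥ 1`, or
`rank + q ≥ r` for some `q` such that `Ш(A_t)` has a subgroup isomorphic to `(ℚ₂ / ℤ₂) ^ q`. -/
def Large (F : Fin g → Family) (r : ℕ) : Set (ℤ × ℤ) := {t |
  (∃ k : ℕ, 1 ≤ k ∧
    2 ^ (k * r) ≤ (2 ^ k) ^ rkP (AV F t) * Nat.card (ShaTorP (AV F t) (2 ^ k))) ∨
    ∃ q : ℕ, r ≤ rkP (AV F t) + q ∧ HasDivP (AV F t) q}

/-! ### An example -/

/-- the linear forms of the example -/
def l0 : Fin 3 × Fin 2 → ℤ × ℤ := fun j =>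
  if j.1 = 0 then (if j.2 = 0 then (1, 1) else (1, -1))
  else if j.1 = 1 then (if j.2 = 0 then (-2, -1) else (4, 1))
  else (if j.2 = 0 then (3, 2) else (3, 0))

/-- The family `F_0 = u² - v²`, `F_1 = u² - (3 u + v)²`, `F_2 = (3 u + v)² - v²`: the curve is
isomorphic to `y² = (x + u²) (x + v²) (x + (3 u + v)²)`. -/
def sample : Family where
  n := 2
  l := l0
  m := fun _ => 1
  a := fun _ => 1
  pos := by norm_num
  even := by decide
  odd := fun _ => odd_one
  ne := fun _ => one_ne_zero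
  indep := by decide
  sub := fun u v => by
    simp only [form, Fin.prod_univ_two, l0]
    simp
    ring

/-! ### Proofs -/

open Pool.Agent.W307.SE (Sel)
open Pool.Agent.TH344.BF (Fb Fam excb bf_ne)
open Pool.Agent.TH841.SH (Bd SelG IsR)

/-- the data of `TH344.BF` -/
def Family.toFam (F : Family) : Fam F.n where
  l := F.l
  m := F.m
  a := F.a
  n0 := F.pos
  ne := F.even
  hm := F.odd
  ha := F.ne
  hl := F.indep
  hF := F.sub

lemma selG_eq (A B : ℤ) : SelG 0 A B = Sel A B := by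
  ext d
  simp [SelG, Sel, Pool.Agent.TH841.SH.LocC, Pool.Agent.W307.SE.Loc]

lemma bd {A B : ℤ} (hA : A ≠ 0) (hB : B ≠ 0) (hAB : A ≠ B) :
    Bd (E A B) ((Sel A B).ncard : ℝ) := by
  have h : IsR (E A B) ((0 : ℤ) : ℚ) (A : ℚ) (B : ℚ) := by
    refine ⟨rfl, ?_, rfl, ?_, ?_⟩
    · show -((A : ℚ) + B) = _
      push_cast
      ring
    · show (A : ℚ) * B = _
      push_cast
      ring
    · show (0 : ℚ) = _
      push_cast
      ring
  have h1 := Pool.Agent.TH841.SH.main (E A B) 0 A B h hA.symm hB.symm hAB (by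
    rw [selG_eq]
    exact Pool.Agent.W701.FK.sel_fin' hA hB hAB)
  rw [selG_eq] at h1
  exact ⟨h1.1, by exact_mod_cast h1.2⟩

lemma box_eq (X : ℕ) : Icc (-(X : ℤ)) X ×ˢ Icc (-(X : ℤ)) X = Pool.Agent.W307.RT.Box X := rfl

lemma mem_Fb {F : Fin g → Family} {X : ℕ} {t : ℤ × ℤ} (ht : t ∈ Pairs F X) (j : Fin g) :
    t ∈ Fb (F j).toFam X := by
  classical
  unfold Pairs at ht
  rw [mem_filter, box_eq] at ht
  unfold Fb
  rw [mem_filter]
  exact ⟨ht.1, ht.2.1, fun k => ht.2.2 j k⟩

lemma bd_AV {F : Fin g → Family} {X : ℕ} {t : ℤ × ℤ} (ht : t ∈ Pairs F X) (j : Fin g) :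
    Bd (AV F t j) ((Sel ((F j).val 0 t) ((F j).val 1 t)).ncard : ℝ) := by
  classical
  unfold Pairs at ht
  have h := (mem_filter.1 ht).2.2 j
  refine bd (h 0) (h 1) fun he => h 2 ?_
  have h1 := (F j).sub t.1 t.2
  have h2 : form (F j).l (F j).m (F j).a 0 t.1 t.2 = form (F j).l (F j).m (F j).a 1 t.1 t.2 := he
  rw [h2, sub_self] at h1
  exact h1.symm

/-- positive proportion -/
lemma low (F : Fin g → Family) :
    ∃ X0 : ℕ, ∀ X, X0 ≤ X → (X : ℝ) ^ 2 / 8 ≤ ((Pairs F X).card : ℝ) := by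
  classical
  obtain ⟨X0, hX0⟩ := Pool.Agent.TH344.GT.cop_box
    (J := (j : Fin g) × (Fin 3 × Fin (F j).n)) (fun s => ((F s.1).l s.2).1)
    (fun s => ((F s.1).l s.2).2)
    (fun s => Pool.Agent.TH344.BF.not_both (F s.1).toFam s.2)
  refine ⟨X0, fun X hX => (hX0 X hX).trans ?_⟩
  have h : (Pool.Agent.W307.RT.Box X).filter (fun t => IsCoprime t.1 t.2 ∧
      ∀ s : (j : Fin g) × (Fin 3 × Fin (F j).n),
        ((F s.1).l s.2).1 * t.1 + ((F s.1).l s.2).2 * t.2 ≠ 0) ⊆ Pairs F X := by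
    intro t ht
    rw [mem_filter] at ht
    unfold Pairs
    rw [mem_filter, box_eq]
    refine ⟨ht.1, ht.2.1, fun j k => ?_⟩
    exact (bf_ne (F j).toFam t).2 (fun s => ht.2.2 ⟨j, s⟩) k
  exact_mod_cast card_le_card h

/-- comparison of the boxes -/
lemma cmp (F : Fin g → Family) : ∃ c : ℝ, 0 < c ∧ ∀ (X : ℕ) (j : Fin g),
    ((Fb (F j).toFam X).card : ℝ) ≤ c * (Pairs F X).card ∨ Pairs F X = ∅ := by
  classical
  obtain ⟨X0, hX0⟩ := low F
  refine ⟨72 + (2 * (X0 : ℝ) + 1) ^ 2, by positivity, fun X j => ?_⟩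
  rcases (Pairs F X).eq_empty_or_nonempty with he | hne
  · exact Or.inr he
  left
  have h1 : (1 : ℝ) ≤ (Pairs F X).card := by exact_mod_cast hne.card_pos
  have h2 : ((Fb (F j).toFam X).card : ℝ) ≤ (2 * (X : ℝ) + 1) ^ 2 := by
    have h3 : (Fb (F j).toFam X).card ≤ (Pool.Agent.W307.RT.Box X).card := by
      unfold Fb
      exact card_filter_le _ _
    have h4 : (Pool.Agent.W307.RT.Box X).card = (2 * X + 1) ^ 2 := by
      unfold Pool.Agent.W307.RT.Box
      rw [card_product, Int.card_Icc, pow_two]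
      congr 1 <;> omega
    rw [h4] at h3
    exact_mod_cast h3
  rcases le_total X0 X with h | h
  · rcases Nat.eq_zero_or_pos X with rfl | hX
    · have h5 : (0 : ℝ) ≤ (2 * (X0 : ℝ) + 1) ^ 2 * (Pairs F 0).card := by positivity
      push_cast at h2
      nlinarith
    have h5 := hX0 X h
    have h6 : (1 : ℝ) ≤ X := by exact_mod_cast hX
    have h7 : (2 * (X : ℝ) + 1) ^ 2 ≤ 9 * (X : ℝ) ^ 2 := by nlinarith
    have h8 : (0 : ℝ) ≤ (2 * (X0 : ℝ) + 1) ^ 2 * (Pairs F X).card := by positivity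
    nlinarith
  · have h5 : (2 * (X : ℝ) + 1) ^ 2 ≤ (2 * (X0 : ℝ) + 1) ^ 2 := by
      have : (X : ℝ) ≤ X0 := by exact_mod_cast h
      have h0 : (0 : ℝ) ≤ X := Nat.cast_nonneg _
      nlinarith
    have h6 : (0 : ℝ) ≤ (2 * (X0 : ℝ) + 1) ^ 2 := by positivity
    nlinarith

open Classical in
/-- one exceptional set for all the factors -/
lemma exc (F : Fin g → Family) : ∃ Z : Set (ℤ × ℤ),
    (∀ ε : ℝ, 0 < ε → ∃ X0 : ℕ, ∀ X, X0 ≤ X →
      (((Pairs F X).filter (fun t => t ∈ Z)).card : ℝ) ≤ ε * (Pairs F X).card) ∧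
    ∀ k : ℕ, ∃ C : Fin g → ℝ, ∀ (j : Fin g) (X : ℕ),
      ∑ t ∈ (Pairs F X).filter (fun t => t ∉ Z),
        ((Sel ((F j).val 0 t) ((F j).val 1 t)).ncard : ℝ) ^ k ≤ C j * (Pairs F X).card := by
  choose Z hZ1 hZ2 using fun j => excb (F j).toFam
  obtain ⟨c, hc0, hc⟩ := cmp F
  refine ⟨⋃ j, Z j, fun ε hε => ?_, fun k => ?_⟩
  · choose X0 hX0 using fun j => hZ1 j (ε / (c * (g + 1))) (by positivity)
    refine ⟨∑ j, X0 j, fun X hX => ?_⟩
    have h1 : (Pairs F X).filter (fun t => t ∈ ⋃ j, Z j) ⊆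
        univ.biUnion (fun j => (Fb (F j).toFam X).filter (fun t => t ∈ Z j) ∩ Pairs F X) := by
      intro t ht
      rw [mem_filter, Set.mem_iUnion] at ht
      obtain ⟨h2, j, h3⟩ := ht
      rw [mem_biUnion]
      exact ⟨j, mem_univ _, mem_inter.2 ⟨mem_filter.2 ⟨mem_Fb h2 j, h3⟩, h2⟩⟩
    have h4 : ∀ j, (((Fb (F j).toFam X).filter (fun t => t ∈ Z j) ∩ Pairs F X).card : ℝ) ≤
        ε / (g + 1) * (Pairs F X).card := by
      intro j
      rcases hc X j with h | h
      · have h5 := hX0 j X ((single_le_sum (f := X0) (fun _ _ => Nat.zero_le _)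
          (mem_univ j)).trans hX)
        calc (((Fb (F j).toFam X).filter (fun t => t ∈ Z j) ∩ Pairs F X).card : ℝ)
            ≤ (((Fb (F j).toFam X).filter (fun t => t ∈ Z j)).card : ℝ) := by
              exact_mod_cast card_le_card inter_subset_left
          _ ≤ ε / (c * (g + 1)) * (Fb (F j).toFam X).card := h5
          _ ≤ ε / (c * (g + 1)) * (c * (Pairs F X).card) :=
              mul_le_mul_of_nonneg_left h (by positivity)
          _ = _ := by
              field_simp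
      · rw [h, inter_empty, card_empty]
        simp
    calc (((Pairs F X).filter (fun t => t ∈ ⋃ j, Z j)).card : ℝ)
        ≤ ((∑ j : Fin g, ((Fb (F j).toFam X).filter (fun t => t ∈ Z j) ∩ Pairs F X).card : ℕ) : ℝ) := by
          exact_mod_cast (card_le_card h1).trans card_biUnion_le
      _ ≤ ∑ j : Fin g, ε / (g + 1) * ((Pairs F X).card : ℝ) := by
          push_cast
          exact sum_le_sum fun j _ => h4 j
      _ = g / (g + 1) * (ε * (Pairs F X).card) := by
          rw [sum_const, card_univ, Fintype.card_fin, nsmul_eq_mul]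
          ring
      _ ≤ 1 * (ε * (Pairs F X).card) := by
          apply mul_le_mul_of_nonneg_right _ (by positivity)
          rw [div_le_one (by positivity)]
          linarith
      _ = _ := one_mul _
  · choose C hC using fun j => hZ2 j k
    refine ⟨fun j => |C j| * c, fun j X => ?_⟩
    rcases hc X j with h | h
    · calc ∑ t ∈ (Pairs F X).filter (fun t => t ∉ ⋃ j, Z j),
            ((Sel ((F j).val 0 t) ((F j).val 1 t)).ncard : ℝ) ^ k
          ≤ ∑ t ∈ (Fb (F j).toFam X).filter (fun t => t ∉ Z j),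
            ((Sel ((F j).val 0 t) ((F j).val 1 t)).ncard : ℝ) ^ k := by
            apply sum_le_sum_of_subset_of_nonneg
            · intro t ht
              rw [mem_filter, Set.mem_iUnion, not_exists] at ht
              exact mem_filter.2 ⟨mem_Fb ht.1 j, ht.2 j⟩
            · intro t _ _
              positivity
        _ ≤ C j * (Fb (F j).toFam X).card := hC j X
        _ ≤ |C j| * (Fb (F j).toFam X).card :=
            mul_le_mul_of_nonneg_right (le_abs_self _) (Nat.cast_nonneg _)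
        _ ≤ |C j| * (c * (Pairs F X).card) := mul_le_mul_of_nonneg_left h (abs_nonneg _)
        _ = _ := by ring
    · rw [h]
      simp

/-- the product of the orders of the Selmer groups -/
noncomputable def NS (F : Fin g → Family) (t : ℤ × ℤ) : ℕ :=
  ∏ j, (Sel ((F j).val 0 t) ((F j).val 1 t)).ncard

lemma exc_prod (hg : 1 ≤ g) (F : Fin g → Family) : Pool.Agent.TH344.GT.EXC (Pairs F) (NS F) := by
  classical
  obtain ⟨Z, hZ1, hZ2⟩ := exc F
  refine ⟨Z, ?_, fun k => ?_⟩
  · intro ε hε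
    obtain ⟨X0, h⟩ := hZ1 ε hε
    refine ⟨X0, fun X hX => le_trans (le_of_eq ?_) (h X hX)⟩
    congr
  · obtain ⟨C, hC⟩ := hZ2 (k * g)
    refine ⟨∑ j, C j, fun X => ?_⟩
    have h1 : ∀ t : ℤ × ℤ, ((NS F t : ℕ) : ℝ) ^ k ≤
        ∑ j, ((Sel ((F j).val 0 t) ((F j).val 1 t)).ncard : ℝ) ^ (k * g) := by
      intro t
      unfold NS
      push_cast
      exact Pool.Agent.TH826.PT.prod_pow_le hg _ (fun _ => Nat.cast_nonneg _) k
    refine le_trans (sum_le_sum fun t _ => h1 t) ?_
    rw [sum_comm, sum_mul]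
    refine sum_le_sum fun j _ => le_trans (le_of_eq ?_) (hC j X)
    congr

lemma card_two {F : Fin g → Family} {X : ℕ} {t : ℤ × ℤ} (ht : t ∈ Pairs F X) :
    Finite {x : ShaP (AV F t) // x + x = 0} ∧
      (2 : ℝ) ^ rkP (AV F t) * Nat.card {x : ShaP (AV F t) // x + x = 0} ≤ (NS F t : ℕ) := by
  obtain ⟨h1, h2⟩ := Pool.Agent.TH826.PT.card_two (AV F t) _ (fun j => bd_AV ht j)
  refine ⟨h1, h2.trans (le_of_eq ?_)⟩
  unfold NS
  push_cast
  rfl

lemma large {F : Fin g → Family} {X : ℕ} {t : ℤ × ℤ} (ht : t ∈ Pairs F X) {r : ℕ}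
    (hr : t ∈ Large F r) : 2 ^ r ≤ NS F t := by
  obtain ⟨h1, h2⟩ := card_two ht
  rcases hr with ⟨k, hk, h⟩ | ⟨q, hq, hd⟩
  · have h3 := (Pool.Agent.TH841.SH.card_tor h1 k).2
    have h2' : 2 ^ rkP (AV F t) * Nat.card {x : ShaP (AV F t) // x + x = 0} ≤ NS F t := by
      exact_mod_cast h2
    have h4 : (2 ^ r) ^ k ≤ (NS F t) ^ k := by
      calc (2 ^ r) ^ k = 2 ^ (k * r) := by rw [← pow_mul, mul_comm]
        _ ≤ (2 ^ k) ^ rkP (AV F t) * Nat.card (ShaTorP (AV F t) (2 ^ k)) := h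
        _ ≤ (2 ^ k) ^ rkP (AV F t) * (Nat.card {x : ShaP (AV F t) // x + x = 0}) ^ k :=
            Nat.mul_le_mul_left _ h3
        _ = (2 ^ rkP (AV F t) * Nat.card {x : ShaP (AV F t) // x + x = 0}) ^ k := by
            rw [mul_pow, ← pow_mul, ← pow_mul, mul_comm k]
        _ ≤ _ := Nat.pow_le_pow_left h2' k
    exact (Nat.pow_le_pow_iff_left (by omega)).1 h4
  · have h3 : (2 : ℝ) ^ (rkP (AV F t) + q) ≤ (NS F t : ℕ) :=
      (Pool.Agent.TH826.PT.div_le h1 le_rfl hd).trans h2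
    have h4 : 2 ^ (rkP (AV F t) + q) ≤ NS F t := by exact_mod_cast h3
    exact (Nat.pow_le_pow_right (by norm_num) hq).trans h4

open Classical in
/-- **Theorem.** Let `A_t`, `t = (u, v)`, be the product of the `g ≥ 1` curves
`y² = x (x - F_0 (t)) (x - F_1 (t))` of `g` families given by split binary forms.
* At least `X² / 8` coprime pairs `t` of height at most `X` have no vanishing form, if `X` is large,
  and for all of them all the groups `Ш(A_t)[2 ^ k]` are finite.
* There is a set `Z` of pairs of density zero such that for every `s` there is `C` such that for all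
  `X` and `k ≥ 1` the sum of `(2 ^ rank * #Ш(A_t)[2 ^ k] ^ (1 / k)) ^ s` over the pairs `t` of height
  at most `X` outside of `Z` is at most `C` times the number of the pairs of height at most `X`, and
  for all `r`, `q` the number of the pairs outside of `Z` of height at most `X` with `rank A_t ≥ r`
  and a subgroup `(ℚ₂ / ℤ₂) ^ q` of `Ш(A_t)` is at most `C / 2 ^ (s (r + q))` times this number.
* For all `B` the product of `B ^ r` and of the upper density of `Large F r` tends to zero for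
  `r → ∞`. -/
theorem result (g : ℕ) (hg : 1 ≤ g) (F : Fin g → Family) :
    (∃ X0 : ℕ, ∀ X : ℕ, X0 ≤ X → (X : ℝ) ^ 2 / 8 ≤ (Pairs F X).card) ∧
    (∀ X : ℕ, ∀ t ∈ Pairs F X, ∀ k : ℕ, Finite (ShaTorP (AV F t) (2 ^ k))) ∧
    (∃ Z : Set (ℤ × ℤ), Tendsto (proportion F Z) atTop (𝓝 0) ∧ ∀ s : ℕ, ∃ C : ℝ, ∀ X : ℕ,
      (∀ k : ℕ, 1 ≤ k → ∑ t ∈ (Pairs F X).filter (fun t => t ∉ Z), ((2 : ℝ) ^ rkP (AV F t) *
        (Nat.card (ShaTorP (AV F t) (2 ^ k)) : ℝ) ^ ((1 : ℝ) / k)) ^ s ≤ C * (Pairs F X).card) ∧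
      ∀ r q : ℕ, (((Pairs F X).filter (fun t => t ∉ Z ∧ r ≤ rkP (AV F t) ∧
        HasDivP (AV F t) q)).card : ℝ) ≤ C * (Pairs F X).card / 2 ^ (s * (r + q))) ∧
    ∀ B : ℝ, Tendsto (fun r : ℕ => B ^ r * upperDensity F (Large F r)) atTop (𝓝 0) := by
  obtain ⟨Z, hZ1, hZ2⟩ := exc F
  refine ⟨low F, fun X t ht k => ?_, ⟨Z, ?_, fun s => ?_⟩, fun B => ?_⟩
  · exact (Pool.Agent.TH841.SH.card_tor (card_two ht).1 k).1
  · refine Pool.Agent.TH344.GT.tendsto_of_eps (Pairs F) ?_
    intro ε hε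
    obtain ⟨X0, h⟩ := hZ1 ε hε
    exact ⟨X0, h⟩
  · obtain ⟨C, hC⟩ := hZ2 (s * g)
    refine ⟨∑ j, C j, fun X => ?_⟩
    have h := Pool.Agent.TH826.PT.familyP hg ((Pairs F X).filter (fun t => t ∉ Z))
      (fun t => AV F t) (fun t j => ((Sel ((F j).val 0 t) ((F j).val 1 t)).ncard : ℝ))
      (fun j => C j * (Pairs F X).card) s (fun t ht j => bd_AV (mem_filter.1 ht).1 j)
      (fun j => hC j X)
    rw [← sum_mul] at h
    refine ⟨h.2.1, fun r q => ?_⟩
    have h1 := h.2.2 r q
    rw [filter_filter] at h1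
    exact h1
  · exact Pool.Agent.TH344.GT.tail (Pairs F) (exc_prod hg F) 1 (S := Large F)
      (fun r X t ht hr => by
        rw [pow_one]
        exact large ht hr) B

end Pool.Agent.Results.MP_a43263_nt.BinaryFormProducts
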