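import Pool.Agent.Q8.NS.Prod

/-!
# Tate-Shafarevich groups in the isogeny classes of products of elliptic curves

A pencil is a family of elliptic curves `E_t : y² = x (x - A(t)) (x - B(t))` with `A = D u₀`,
`B = D u₁`, where `u₀`, `u₁`, `u₂ = u₀ - u₁` and `D` are polynomials with integer coefficients
without common irreducible factors. `E_t` has three quotients by the subgroups of order 2. Let
`A_t` be the product of `g` such curves, for `g` pencils. Replacing some of the factors by such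
quotients one obtains `4 ^ g` abelian varieties isogenous to `A_t`. For almost all `t` in short
intervals all these abelian varieties have rank and 2-power corank of `Ш` at most `R`; the group
`Ш(A_t)[2 ^ k]` has order at most `2 ^ (R k)`; and for each of the `4 ^ g` abelian varieties `A'`
the dimension of `Ш(A')[2]` over the field of two elements has a normal order `κ log log M`, where
`κ` is the sum of constants that belong to the factors, while `#Ш(A')[2 ^ k]` is at most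
`2 ^ (R k) #Ш(A')[2]`.
-/

set_option autoImplicit false

namespace Pool.Agent.Results.MP_a43263_nt.IsogenyClassesOfProducts

open WeierstrassCurve Finset Polynomial

open Pool.Agent.TH826.PT (ShaP ShaTorP HasDivP rkP)

open Pool.Agent.TH841.SH.D (rk ShaTor)

/-- the curve `y² = x (x - A) (x - B)` -/
def E (A B : ℤ) : WeierstrassCurve ℚ := ⟨0, -((A : ℚ) + B), 0, (A : ℚ) * B, 0⟩

/-- the quotient of `y² = x (x - A) (x - B)` by its subgroup generated by `(0, 0)`: the curve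
`y² = x³ + 2 (A + B) x² + (A - B)² x` -/
def E' (A B : ℤ) : WeierstrassCurve ℚ := ⟨0, 2 * ((A : ℚ) + B), 0, ((A : ℚ) - B) ^ 2, 0⟩

/-- `y² = x (x - A) (x - B)` and its quotients by the subgroups generated by `(0, 0)`, `(A, 0)` and
`(B, 0)`; with the origin at `(A, 0)` the equation is `y² = x (x + A) (x - (B - A))`, and with the
origin at `(B, 0)` it is `y² = x (x + B) (x - (A - B))` -/
def cv (A B : ℤ) : Fin 4 → WeierstrassCurve ℚ :=
  ![E A B, E' A B, E' (-A) (B - A), E' (-B) (A - B)]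

/-- the data of a pencil: `u_k = a_k ∏ f_{k,i}` and `D = c ∏ h_i` -/
structure Pencil where
  /-- the number of the factors of `u_k` -/
  n : Fin 3 → ℕ
  /-- the number of the factors of `D` -/
  m : ℕ
  /-- the constants -/
  a : Fin 3 → ℤ
  /-- the factors of `u_k` -/
  f : ∀ k : Fin 3, Fin (n k) → ℤ[X]
  /-- the constant of `D` -/
  c : ℤ
  /-- the factors of `D` -/
  h : Fin m → ℤ[X]

namespace Pencil

/-- `u_k = a_k ∏ f_{k,i}` -/
noncomputable def u (P : Pencil) (k : Fin 3) : ℤ[X] := C (P.a k) * ∏ i, P.f k i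

/-- `D = c ∏ h_i` -/
noncomputable def D (P : Pencil) : ℤ[X] := C P.c * ∏ i, P.h i

/-- the value of `A = D u₀` -/
noncomputable def A (P : Pencil) (t : ℤ) : ℤ := (P.D * P.u 0).eval t

/-- the value of `B = D u₁` -/
noncomputable def B (P : Pencil) (t : ℤ) : ℤ := (P.D * P.u 1).eval t

/-- `v` is a square modulo `f` in `ℚ[t]` -/
def SqMod (f v : ℤ[X]) : Prop := ∃ q : ℚ[X], f.map (Int.castRingHom ℚ) ∣
  (q ^ 2 - v.map (Int.castRingHom ℚ))

/-- `- D u₁`, `- D u₀`, `D u₀` -/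
noncomputable def v (P : Pencil) : Fin 3 → ℤ[X] :=
  ![-(P.D * P.u 1), -(P.D * P.u 0), P.D * P.u 0]

open Classical in
/-- the number of the factors `f_{k,i}` of `u_k` modulo which `v_k` is a square -/
noncomputable def s (P : Pencil) (k : Fin 3) : ℕ :=
  (univ.filter (fun i => SqMod (P.f k i) (P.v k))).card

open Classical in
/-- the number of the factors of `D` modulo which `q` is not a square -/
noncomputable def r (P : Pencil) (q : ℤ[X]) : ℕ :=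
  (univ.filter (fun i => ¬ SqMod (P.h i) q)).card

/-- the constants of the four curves `cv`: `0`,
`n₀ + n₁ - (n₂ + s₂) / 2 + r(u₀ u₁) / 2`, `n₀ + n₂ - (n₁ + s₁) / 2 + r(u₀ u₂) / 2` and
`n₁ + n₂ - (n₀ + s₀) / 2 + r(- u₁ u₂) / 2` -/
noncomputable def κ (P : Pencil) : Fin 4 → ℝ :=
  ![0, (P.n 0 : ℝ) + P.n 1 - ((P.n 2 : ℝ) + P.s 2) / 2 + (P.r (P.u 0 * P.u 1) : ℝ) / 2,
    (P.n 0 : ℝ) + P.n 2 - ((P.n 1 : ℝ) + P.s 1) / 2 + (P.r (P.u 0 * P.u 2) : ℝ) / 2,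
    (P.n 1 : ℝ) + P.n 2 - ((P.n 0 : ℝ) + P.s 0) / 2 + (P.r (-(P.u 1 * P.u 2)) : ℝ) / 2]

/-- The pencil is admissible: `a_k` and `c` are nonzero, the polynomials `f_{k,i}` and `h_i` are
irreducible of positive degree and pairwise non-associated, `u₀ - u₁ = u₂`, and
`2 n_k + s_k ≤ n₀ + n₁ + n₂` for all `k` (this holds if `3 n_k ≤ n₀ + n₁ + n₂`) or
`2 n_k < n₀ + n₁ + n₂` for all `k`. -/
def Good (P : Pencil) : Prop :=
  (∀ k, P.a k ≠ 0) ∧ P.c ≠ 0 ∧
  (∀ k i, Irreducible (P.f k i) ∧ 0 < (P.f k i).natDegree) ∧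
  (∀ i, Irreducible (P.h i) ∧ 0 < (P.h i).natDegree) ∧
  (∀ k i l j, (⟨k, i⟩ : Σ k : Fin 3, Fin (P.n k)) ≠ ⟨l, j⟩ → ¬ Associated (P.f k i) (P.f l j)) ∧
  (∀ i j, i ≠ j → ¬ Associated (P.h i) (P.h j)) ∧ (∀ k i j, ¬ Associated (P.f k i) (P.h j)) ∧
  P.u 0 - P.u 1 = P.u 2 ∧
  ((∀ k, 2 * P.n k < P.n 0 + P.n 1 + P.n 2) ∨ ∀ k, 2 * P.n k + P.s k ≤ P.n 0 + P.n 1 + P.n 2)

end Pencil

/-- the abelian variety that belongs to `t` and to the choice `k` of a curve for each of the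
factors -/
noncomputable def AV {g : ℕ} (P : Fin g → Pencil) (k : Fin g → Fin 4) (t : ℤ) :
    Fin g → WeierstrassCurve ℚ :=
  fun j => cv ((P j).A t) ((P j).B t) (k j)

/-- `t` is normal: all the factors are elliptic curves; for all the `4 ^ g` choices `k` the abelian
variety `A' = AV P k t` has rank at most `R` and finite groups `Ш(A')[2 ^ j]`; `Ш(A')` does not
contain `(ℚ₂ / ℤ₂) ^ q` for `q > R`; the dimension of `Ш(A')[2]` over the field of two elements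
differs from `(∑_j κ_{j, k_j}) log log M` by at most `δ log log M`; the order of `Ш(A')[2 ^ j]` is
at most `2 ^ (R j)` times the order of `Ш(A')[2]`; and it is at most `2 ^ (R j)` if all the factors
are the curves `E` (`k = 0`). -/
def Normal {g : ℕ} (P : Fin g → Pencil) (R : ℕ) (δ : ℝ) (M : ℕ) (t : ℤ) : Prop :=
  (∀ j, (P j).A t ≠ 0 ∧ (P j).B t ≠ 0 ∧ (P j).A t ≠ (P j).B t) ∧
  ∀ k : Fin g → Fin 4,
    rkP (AV P k t) ≤ R ∧ (∀ j : ℕ, Finite (ShaTorP (AV P k t) (2 ^ j))) ∧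
    (∀ q : ℕ, HasDivP (AV P k t) q → q ≤ R) ∧
    |Real.logb 2 (Nat.card (ShaTorP (AV P k t) 2)) -
      (∑ j, (P j).κ (k j)) * Real.log (Real.log M)| ≤ δ * Real.log (Real.log M) ∧
    (∀ j : ℕ, 1 ≤ j → Nat.card (ShaTorP (AV P k t) (2 ^ j)) ≤
      2 ^ (R * j) * Nat.card (ShaTorP (AV P k t) 2)) ∧
    (k = 0 → ∀ j : ℕ, 1 ≤ j → Nat.card (ShaTorP (AV P k t) (2 ^ j)) ≤ 2 ^ (R * j))

/-! ## The three quotients of one pencil -/

namespace Pencil

/-- the pencil with permuted `u_k` -/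
def perm (P : Pencil) (σ : Fin 3 → Fin 3) (e : Fin 3 → ℤ) : Pencil :=
  ⟨fun k => P.n (σ k), P.m, fun k => e k * P.a (σ k), fun k => P.f (σ k), -P.c, P.h⟩

lemma perm_u (P : Pencil) (σ : Fin 3 → Fin 3) (e : Fin 3 → ℤ) (k : Fin 3) :
    (P.perm σ e).u k = C (e k) * P.u (σ k) := by
  show C (e k * P.a (σ k)) * ∏ i, P.f (σ k) i = _
  rw [C_mul, mul_assoc]
  rfl

lemma perm_D (P : Pencil) (σ : Fin 3 → Fin 3) (e : Fin 3 → ℤ) : (P.perm σ e).D = -P.D := by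
  show C (-P.c) * ∏ i, P.h i = _
  rw [C_neg, neg_mul]
  rfl

lemma sqMod_congr {f v w : ℤ[X]} (h : f ∣ v - w) : SqMod f v ↔ SqMod f w := by
  have h1 : f.map (Int.castRingHom ℚ) ∣ v.map (Int.castRingHom ℚ) - w.map (Int.castRingHom ℚ) := by
    rw [← Polynomial.map_sub]
    exact (Polynomial.mapRingHom (Int.castRingHom ℚ)).map_dvd h
  constructor
  · rintro ⟨q, hq⟩
    refine ⟨q, ?_⟩
    have := dvd_add hq h1
    convert this using 1
    ring
  · rintro ⟨q, hq⟩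
    refine ⟨q, ?_⟩
    have := dvd_sub hq h1
    convert this using 1
    ring

lemma dvd_u (P : Pencil) (k : Fin 3) (i : Fin (P.n k)) : P.f k i ∣ P.u k :=
  (Finset.dvd_prod_of_mem _ (Finset.mem_univ i)).mul_left _

lemma perm_s (P : Pencil) (σ : Fin 3 → Fin 3) (e : Fin 3 → ℤ) (k : Fin 3)
    (h : P.u (σ k) ∣ (P.perm σ e).v k - P.v (σ k)) : (P.perm σ e).s k = P.s (σ k) := by
  classical
  show (univ.filter (fun i => SqMod (P.f (σ k) i) ((P.perm σ e).v k))).card =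
    (univ.filter (fun i => SqMod (P.f (σ k) i) (P.v (σ k)))).card
  congr 1
  refine Finset.filter_congr fun i _ => sqMod_congr ((P.dvd_u _ i).trans h)

/-- the first permutation -/
noncomputable def P1 (P : Pencil) : Pencil := P.perm ![0, 2, 1] ![1, 1, 1]

/-- the second permutation -/
noncomputable def P2 (P : Pencil) : Pencil := P.perm ![1, 2, 0] ![1, -1, 1]

variable {P : Pencil}

lemma P1_u0 : P.P1.u 0 = P.u 0 := by
  rw [P1, perm_u]
  simp

lemma P1_u1 : P.P1.u 1 = P.u 2 := by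
  rw [P1, perm_u]
  simp

lemma P1_u2 : P.P1.u 2 = P.u 1 := by
  rw [P1, perm_u]
  simp

lemma P2_u0 : P.P2.u 0 = P.u 1 := by
  rw [P2, perm_u]
  simp

lemma P2_u1 : P.P2.u 1 = -P.u 2 := by
  rw [P2, perm_u]
  simp

lemma P2_u2 : P.P2.u 2 = P.u 0 := by
  rw [P2, perm_u]
  simp

lemma P1_D : P.P1.D = -P.D := perm_D _ _ _

lemma P2_D : P.P2.D = -P.D := perm_D _ _ _

lemma P1_s (hu : P.u 0 - P.u 1 = P.u 2) (k : Fin 3) : P.P1.s k = P.s (![0, 2, 1] k) := by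
  refine perm_s P _ _ k ?_
  show P.u (![0, 2, 1] k) ∣ P.P1.v k - P.v (![0, 2, 1] k)
  fin_cases k
  · show P.u 0 ∣ -(P.P1.D * P.P1.u 1) - -(P.D * P.u 1)
    rw [P1_D, P1_u1, ← hu]
    exact ⟨P.D, by ring⟩
  · show P.u 2 ∣ -(P.P1.D * P.P1.u 0) - P.D * P.u 0
    rw [P1_D, P1_u0]
    exact ⟨0, by ring⟩
  · show P.u 1 ∣ P.P1.D * P.P1.u 0 - -(P.D * P.u 0)
    rw [P1_D, P1_u0]
    exact ⟨0, by ring⟩

lemma P2_s (hu : P.u 0 - P.u 1 = P.u 2) (k : Fin 3) : P.P2.s k = P.s (![1, 2, 0] k) := by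
  refine perm_s P _ _ k ?_
  show P.u (![1, 2, 0] k) ∣ P.P2.v k - P.v (![1, 2, 0] k)
  fin_cases k
  · show P.u 1 ∣ -(P.P2.D * P.P2.u 1) - -(P.D * P.u 0)
    rw [P2_D, P2_u1, ← hu]
    exact ⟨P.D, by ring⟩
  · show P.u 2 ∣ -(P.P2.D * P.P2.u 0) - P.D * P.u 0
    rw [P2_D, P2_u0, ← hu]
    exact ⟨-P.D, by ring⟩
  · show P.u 0 ∣ P.P2.D * P.P2.u 0 - -(P.D * P.u 1)
    rw [P2_D, P2_u0]
    exact ⟨0, by ring⟩

lemma good_perm (h : P.Good) (σ : Fin 3 → Fin 3) (hσ : Function.Injective σ) (e : Fin 3 → ℤ)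
    (he : ∀ k, e k ≠ 0) (hs : ∀ k, (P.perm σ e).s k = P.s (σ k))
    (hn : P.n (σ 0) + P.n (σ 1) + P.n (σ 2) = P.n 0 + P.n 1 + P.n 2)
    (hu : (P.perm σ e).u 0 - (P.perm σ e).u 1 = (P.perm σ e).u 2) : (P.perm σ e).Good := by
  obtain ⟨h1, h2, h3, h4, h5, h6, h7, h8, h9⟩ := h
  refine ⟨fun k => mul_ne_zero (he k) (h1 _), neg_ne_zero.2 h2, fun k i => h3 _ _, h4,
    fun k i l j hne => h5 _ _ _ _ fun hcon => hne ?_, h6, fun k i j => h7 _ _ _, hu, ?_⟩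
  · obtain ⟨e1, e2⟩ := Sigma.mk.inj_iff.1 hcon
    obtain rfl := hσ e1
    rw [eq_of_heq e2]
  · rcases h9 with h | h
    · left
      intro k
      show 2 * P.n (σ k) < P.n (σ 0) + P.n (σ 1) + P.n (σ 2)
      rw [hn]
      exact h _
    · right
      intro k
      rw [hs]
      show 2 * P.n (σ k) + P.s (σ k) ≤ P.n (σ 0) + P.n (σ 1) + P.n (σ 2)
      rw [hn]
      exact h _

lemma good_P1 (h : P.Good) : P.P1.Good := by
  have hu := h.2.2.2.2.2.2.2.1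
  refine good_perm h _ ?_ _ ?_ (P1_s hu) ?_ ?_
  · decide
  · decide
  · show P.n 0 + P.n 2 + P.n 1 = _
    ring
  · show P.P1.u 0 - P.P1.u 1 = P.P1.u 2
    rw [P1_u0, P1_u1, P1_u2, ← hu]
    ring

lemma good_P2 (h : P.Good) : P.P2.Good := by
  have hu := h.2.2.2.2.2.2.2.1
  refine good_perm h _ ?_ _ ?_ (P2_s hu) ?_ ?_
  · decide
  · decide
  · show P.n 1 + P.n 2 + P.n 0 = _
    ring
  · show P.P2.u 0 - P.P2.u 1 = P.P2.u 2
    rw [P2_u0, P2_u1, P2_u2, ← hu]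
    ring

lemma P1_A (t : ℤ) : P.P1.A t = -P.A t := by
  rw [A, A, P1_D, P1_u0, neg_mul, eval_neg]

lemma P1_B (hu : P.u 0 - P.u 1 = P.u 2) (t : ℤ) : P.P1.B t = P.B t - P.A t := by
  rw [B, B, A, P1_D, P1_u1, ← hu, ← eval_sub]
  congr 1
  ring

lemma P2_A (t : ℤ) : P.P2.A t = -P.B t := by
  rw [A, B, P2_D, P2_u0, neg_mul, eval_neg]

lemma P2_B (hu : P.u 0 - P.u 1 = P.u 2) (t : ℤ) : P.P2.B t = P.A t - P.B t := by
  rw [B, B, A, P2_D, P2_u1, ← hu, ← eval_sub]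
  congr 1
  ring

lemma P1_κ (hu : P.u 0 - P.u 1 = P.u 2) : P.P1.κ 1 = P.κ 2 := by
  have e1 : P.P1.s 2 = P.s 1 := P1_s hu 2
  have e2 : P.P1.r (P.P1.u 0 * P.P1.u 1) = P.r (P.u 0 * P.u 2) := by
    rw [P1_u0, P1_u1]
    rfl
  show (P.n 0 : ℝ) + P.n 2 - ((P.n 1 : ℝ) + P.P1.s 2) / 2 +
    (P.P1.r (P.P1.u 0 * P.P1.u 1) : ℝ) / 2 = (P.n 0 : ℝ) + P.n 2 - ((P.n 1 : ℝ) + P.s 1) / 2 +
    (P.r (P.u 0 * P.u 2) : ℝ) / 2
  rw [e1, e2]

lemma P2_κ (hu : P.u 0 - P.u 1 = P.u 2) : P.P2.κ 1 = P.κ 3 := by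
  have e1 : P.P2.s 2 = P.s 0 := P2_s hu 2
  have e2 : P.P2.r (P.P2.u 0 * P.P2.u 1) = P.r (-(P.u 1 * P.u 2)) := by
    rw [P2_u0, P2_u1, mul_neg]
    rfl
  show (P.n 1 : ℝ) + P.n 2 - ((P.n 0 : ℝ) + P.P2.s 2) / 2 +
    (P.P2.r (P.P2.u 0 * P.P2.u 1) : ℝ) / 2 = (P.n 1 : ℝ) + P.n 2 - ((P.n 0 : ℝ) + P.s 0) / 2 +
    (P.r (-(P.u 1 * P.u 2)) : ℝ) / 2
  rw [e1, e2]

open Classical in
/-- the quotient by `(0, 0)` -/
lemma one (h : P.Good) (δ ε : ℝ) (L : ℕ) (hδ : 0 < δ) (hε : 0 < ε) :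
    ∃ R M₀ : ℕ, ∀ (N : ℤ) (M : ℕ), M₀ ≤ M → |N| ≤ (M : ℤ) ^ L →
      (((Ioc N (N + (M : ℤ))).filter (fun t => ¬ Pool.Agent.Q8.NS.OK2 R (P.κ 1) δ
        (Real.log (Real.log M)) (P.A t) (P.B t))).card : ℝ) ≤ ε * M := by
  obtain ⟨ha, hc, hf, hg, hff, hgg, hfg, hu, hn⟩ := h
  have hirr : Pool.Agent.TH841.PT.Irr (Pool.Agent.TH841.TR.allf P.h P.f) := by
    refine ⟨?_, ?_, ?_⟩
    · rintro (x | i)
      · exact (hf x.1 x.2).1
      · exact (hg i).1
    · rintro (x | i)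
      · exact (hf x.1 x.2).2
      · exact (hg i).2
    · rintro (x | i) (y | j) hxy
      · exact hff x.1 x.2 y.1 y.2 (fun h => hxy (congrArg Sum.inl h))
      · exact hfg x.1 x.2 j
      · exact fun h => hfg y.1 y.2 i h.symm
      · exact hgg i j (fun h => hxy (congrArg Sum.inr h))
  have hn' : (∀ k, 2 * P.n k < P.n 0 + P.n 1 + P.n 2) ∨
      Pool.Agent.TH841.TR.Bal (Pool.Agent.TH841.LS.DG P.c P.h) P.a P.f := by
    rcases hn with h | h
    · exact Or.inl h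
    · exact Or.inr (Pool.Agent.TH841.TR.bal_of (v := P.v) rfl rfl rfl fun k => h k)
  exact Pool.Agent.Q8.NS.pencil P.a P.f P.c P.h ha hc hirr hu hn' δ ε L hδ hε

/-- the properties of the four curves -/
def Four (P : Pencil) (R : ℕ) (δ l : ℝ) (t : ℤ) : Prop :=
  P.A t ≠ 0 ∧ P.B t ≠ 0 ∧ P.A t ≠ P.B t ∧
  (∀ k, Pool.Agent.Q8.NS.Fct R (P.κ k) δ l (cv (P.A t) (P.B t) k)) ∧
  ∀ j : ℕ, 1 ≤ j → Nat.card (ShaTor (cv (P.A t) (P.B t) 0) (2 ^ j)) ≤ 2 ^ (R * j)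

lemma fct_WI {R R' : ℕ} {κ δ l : ℝ} {A B : ℤ} (h : Pool.Agent.Q8.NS.OK2 R κ δ l A B)
    (hR : R ≤ R') : Pool.Agent.Q8.NS.Fct R' κ δ l (E' A B) := by
  obtain ⟨a1, a2, a3, a4, a5, a6, b4, b5, b6, b7, b8⟩ := h.mono hR
  have e : Pool.Agent.TH841.LS.WI A B = E' A B := rfl
  rw [e] at b6 b7
  refine ⟨b4, b5, ?_, b8⟩
  rw [abs_le]
  constructor <;> linarith

lemma fct_EQ {R R' : ℕ} {κ δ l : ℝ} {A B : ℤ} (h : Pool.Agent.Q8.NS.OK2 R κ δ l A B)
    (hR : R ≤ R') (hl : (R : ℝ) ≤ δ * l) : Pool.Agent.Q8.NS.Fct R' 0 δ l (E A B) := by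
  obtain ⟨a1, a2, a3, a4, a5, a6, b4, b5, b6, b7, b8⟩ := h
  have e : Pool.Agent.TH841.PT.EQ A B = E A B := rfl
  rw [e] at a4 a5 a6
  have hf1 : Finite (ShaTor (E A B) 2) := by
    have := a5 1
    rwa [pow_one] at this
  have hpos := Pool.Agent.Q8.NS.card_pos_tor hf1
  have hposr : (0 : ℝ) < (Nat.card (ShaTor (E A B) 2) : ℝ) := by exact_mod_cast hpos
  have h1 : Nat.card (ShaTor (E A B) 2) ≤ 2 ^ R := by
    have := a6 1 le_rfl
    rwa [pow_one, mul_one] at this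
  refine ⟨a4.trans hR, a5, ?_, fun j hj => ?_⟩
  · rw [zero_mul, sub_zero, abs_le]
    constructor
    · have h2 : 0 ≤ Real.logb 2 (Nat.card (ShaTor (E A B) 2)) :=
        Real.logb_nonneg (by norm_num) (by exact_mod_cast hpos)
      have h3 : (0 : ℝ) ≤ R := Nat.cast_nonneg _
      linarith
    · refine le_trans ?_ hl
      rw [Real.logb_le_iff_le_rpow (by norm_num) hposr, Real.rpow_natCast]
      exact_mod_cast h1
  · refine (a6 j hj).trans ?_
    calc 2 ^ (R * j) ≤ 2 ^ (R' * j) := Nat.pow_le_pow_right (by norm_num) (Nat.mul_le_mul_right _ hR)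
      _ = 2 ^ (R' * j) * 1 := (mul_one _).symm
      _ ≤ _ := Nat.mul_le_mul_left _ hpos

open Classical in
/-- the four curves -/
lemma four (h : P.Good) (δ ε : ℝ) (L : ℕ) (hδ : 0 < δ) (hε : 0 < ε) :
    ∃ R M₀ : ℕ, ∀ (N : ℤ) (M : ℕ), M₀ ≤ M → |N| ≤ (M : ℤ) ^ L →
      (((Ioc N (N + (M : ℤ))).filter (fun t => ¬ P.Four R δ
        (Real.log (Real.log M)) t)).card : ℝ) ≤ ε * M := by
  have hu := h.2.2.2.2.2.2.2.1
  obtain ⟨R1, M1, g1⟩ := one h δ (ε / 3) L hδ (by positivity)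
  obtain ⟨R2, M2, g2⟩ := one (good_P1 h) δ (ε / 3) L hδ (by positivity)
  obtain ⟨R3, M3, g3⟩ := one (good_P2 h) δ (ε / 3) L hδ (by positivity)
  obtain ⟨M4, g4⟩ := Pool.Agent.TH841.LS.big_loglog δ (R1 : ℝ) hδ
  refine ⟨R1 + R2 + R3, M1 + M2 + M3 + M4, fun N M hM hN => ?_⟩
  have b1 := g1 N M (by omega) hN
  have b2 := g2 N M (by omega) hN
  have b3 := g3 N M (by omega) hN
  have b4 := g4 M (by omega)
  set S1 := (Ioc N (N + (M : ℤ))).filter (fun t => ¬ Pool.Agent.Q8.NS.OK2 R1 (P.κ 1) δ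
        (Real.log (Real.log M)) (P.A t) (P.B t))
  set S2 := (Ioc N (N + (M : ℤ))).filter (fun t => ¬ Pool.Agent.Q8.NS.OK2 R2 (P.P1.κ 1) δ
        (Real.log (Real.log M)) (P.P1.A t) (P.P1.B t))
  set S3 := (Ioc N (N + (M : ℤ))).filter (fun t => ¬ Pool.Agent.Q8.NS.OK2 R3 (P.P2.κ 1) δ
        (Real.log (Real.log M)) (P.P2.A t) (P.P2.B t))
  have hsub : (Ioc N (N + (M : ℤ))).filter (fun t => ¬ P.Four (R1 + R2 + R3) δ
        (Real.log (Real.log M)) t) ⊆ S1 ∪ S2 ∪ S3 := by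
    intro t ht
    obtain ⟨ht1, ht3⟩ := mem_filter.1 ht
    by_contra hcon
    rw [mem_union, mem_union, not_or, not_or, mem_filter, mem_filter, mem_filter] at hcon
    obtain ⟨⟨c1, c2⟩, c3⟩ := hcon
    apply ht3
    have d1 := not_not.1 (fun h => c1 ⟨ht1, h⟩)
    have d2 := not_not.1 (fun h => c2 ⟨ht1, h⟩)
    have d3 := not_not.1 (fun h => c3 ⟨ht1, h⟩)
    rw [P1_A, P1_B hu, P1_κ hu] at d2
    rw [P2_A, P2_B hu, P2_κ hu] at d3
    refine ⟨d1.1, d1.2.1, d1.2.2.1, ?_, ?_⟩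
    · intro k
      fin_cases k
      · exact fct_EQ d1 (by omega) b4
      · exact fct_WI d1 (by omega)
      · exact fct_WI d2 (by omega)
      · exact fct_WI d3 (by omega)
    · intro j hj
      refine (d1.2.2.2.2.2.1 j hj).trans ?_
      exact Nat.pow_le_pow_right (by norm_num) (Nat.mul_le_mul_right _ (by omega))
  have hcard : (((Ioc N (N + (M : ℤ))).filter (fun t => ¬ P.Four (R1 + R2 + R3) δ
      (Real.log (Real.log M)) t)).card : ℝ) ≤ S1.card + S2.card + S3.card := by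
    exact_mod_cast (card_le_card hsub).trans ((card_union_le _ _).trans
      (Nat.add_le_add_right (card_union_le _ _) _))
  linarith

end Pencil

open Classical in
/-- **Theorem.** Let `P_1, …, P_g` be admissible pencils. For all `δ, ε > 0` and `L` there are `R`
and `M₀` such that for `M ≥ M₀` and `|N| ≤ M ^ L` all but at most `ε M` of the integers
`N < t ≤ N + M` are normal: for all the `4 ^ g` abelian varieties `A' = AV P k t` that are obtained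
from `∏_j E_{j,t}` by replacing some of the factors by quotients by subgroups of order 2, the rank
and the 2-power corank of `Ш` are at most `R`, the groups `Ш(A')[2 ^ j]` are finite,
`|log₂ #Ш(A')[2] - (∑_j κ_{j, k_j}) log log M| ≤ δ log log M`, and
`#Ш(A')[2 ^ j] ≤ 2 ^ (R j) #Ш(A')[2]`, while `#Ш(∏_j E_{j,t})[2 ^ j] ≤ 2 ^ (R j)`. -/
theorem result (g : ℕ) (P : Fin g → Pencil) (hP : ∀ j, (P j).Good) (δ ε : ℝ) (L : ℕ)
    (hδ : 0 < δ) (hε : 0 < ε) :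
    ∃ R M₀ : ℕ, ∀ (N : ℤ) (M : ℕ), M₀ ≤ M → |N| ≤ (M : ℤ) ^ L →
      (((Ioc N (N + (M : ℤ))).filter (fun t => ¬ Normal P R δ M t)).card : ℝ) ≤ ε * M := by
  have hg : (0 : ℝ) < g + 1 := by positivity
  choose R M₁ h using fun j => Pencil.four (hP j) (δ / (g + 1)) (ε / (g + 1)) L (by positivity)
    (by positivity)
  obtain ⟨M2, g2⟩ := Pool.Agent.TH841.LS.big_loglog δ (0 : ℝ) hδ
  refine ⟨g * ∑ j, R j, ∑ j, M₁ j + M2, fun N M hM hN => ?_⟩
  have hM1 : ∀ j, M₁ j ≤ M := fun j =>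
    (Finset.single_le_sum (f := M₁) (fun i _ => Nat.zero_le _) (mem_univ j)).trans (by omega)
  have hR1 : ∀ j, R j ≤ ∑ j, R j := fun j =>
    Finset.single_le_sum (f := R) (fun i _ => Nat.zero_le _) (mem_univ j)
  have hl : 0 ≤ δ * Real.log (Real.log M) := g2 M (by omega)
  have hb := fun j => h j N M (hM1 j) hN
  set S := fun j => (Ioc N (N + (M : ℤ))).filter (fun t => ¬ (P j).Four (R j) (δ / (g + 1))
        (Real.log (Real.log M)) t)
  have hsub : (Ioc N (N + (M : ℤ))).filter (fun t => ¬ Normal P (g * ∑ j, R j) δ M t) ⊆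
      Finset.univ.biUnion S := by
    intro t ht
    obtain ⟨ht1, ht3⟩ := mem_filter.1 ht
    by_contra hcon
    apply ht3
    have hd : ∀ j, (P j).Four (R j) (δ / (g + 1)) (Real.log (Real.log M)) t := by
      intro j
      by_contra hj
      exact hcon (mem_biUnion.2 ⟨j, mem_univ j, mem_filter.2 ⟨ht1, hj⟩⟩)
    refine ⟨fun j => ⟨(hd j).1, (hd j).2.1, (hd j).2.2.1⟩, fun k => ?_⟩
    have hfc : ∀ j, Pool.Agent.Q8.NS.Fct (∑ j, R j) ((P j).κ (k j)) (δ / (g + 1))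
        (Real.log (Real.log M)) (AV P k t j) := fun j => by
      obtain ⟨q1, q2, q3, q4⟩ := (hd j).2.2.2.1 (k j)
      refine ⟨q1.trans (hR1 j), q2, q3, fun i hi => (q4 i hi).trans (Nat.mul_le_mul_right _ ?_)⟩
      exact Nat.pow_le_pow_right (by norm_num) (Nat.mul_le_mul_right _ (hR1 j))
    obtain ⟨p1, p2, p3, p4, p5⟩ := Pool.Agent.Q8.NS.prod_fct hfc
    refine ⟨p1, p2, p3, p4.trans ?_, p5, ?_⟩
    · have e1 : (g : ℝ) * (δ / (g + 1)) * Real.log (Real.log M) =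
        (g / (g + 1)) * (δ * Real.log (Real.log M)) := by ring
      rw [e1]
      refine mul_le_of_le_one_left hl ?_
      rw [div_le_one hg]
      linarith
    · rintro rfl j hj
      rw [Pool.Agent.Q8.NS.card_torP]
      refine (Finset.prod_le_prod' fun i _ => (show Nat.card (ShaTor (AV P 0 t i) (2 ^ j)) ≤
        2 ^ ((∑ j, R j) * j) from ((hd i).2.2.2.2 j hj).trans
          (Nat.pow_le_pow_right (by norm_num) (Nat.mul_le_mul_right _ (hR1 i))))).trans ?_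
      rw [Finset.prod_const, Finset.card_univ, Fintype.card_fin, ← pow_mul]
      exact Nat.pow_le_pow_right (by norm_num) (le_of_eq (by ring))
  have hcard : (((Ioc N (N + (M : ℤ))).filter (fun t => ¬ Normal P (g * ∑ j, R j) δ M t)).card : ℝ)
      ≤ ∑ j, ((S j).card : ℝ) := by
    exact_mod_cast (card_le_card hsub).trans card_biUnion_le
  refine hcard.trans ((Finset.sum_le_sum fun j _ => hb j).trans ?_)
  rw [Finset.sum_const, Finset.card_univ, Fintype.card_fin, nsmul_eq_mul]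
  have e2 : (g : ℝ) * (ε / (g + 1) * M) = (g / (g + 1)) * (ε * M) := by ring
  rw [e2]
  refine mul_le_of_le_one_left (by positivity) ?_
  rw [div_le_one hg]
  linarith

end Pool.Agent.Results.MP_a43263_nt.IsogenyClassesOfProducts
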