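import Pool.Agent.Q8.JS.Fin

/-!
# The Tate-Shafarevich groups of the quotients of hyperelliptic Jacobians by 2-torsion subgroups

Let `g ≥ 1` and let `J` be the Jacobian of `y² = (x - a_0) (x - a_1) ... (x - a_{2 g})`, where the
`a_i` are distinct integers; the curves are ordered by `max |a_i|`. The points of order two of `J` are
rational, and `J[2]` is the group of the vectors `w` in `(ℤ/2)^(2 g + 1)` with `∑ w_i = 0`. For a
subgroup `C` of `J[2]` let `A = J / C`, an abelian variety over `ℚ` isogenous to `J` (principally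
polarised if `C` is maximal isotropic; for `g = 2` this is a Richelot isogeny).

For almost all `a` the order of `Ш(J)[2]` is bounded. We show that for all `a`, but a proportion `ε`,
and for all `C`: the rank of `A(ℚ)` and the corank of `Ш(A)[2^∞]` are bounded, `2 Ш(A)[2^m]` has at
most `2 ^ (R m)` elements, and `Ш(A)` contains `(ℤ/2)^k` with `k ≥ (κ(C) - ε) log log X`. Here
`κ(C) ≥ g (2 g - 1) > 0` for all maximal isotropic `C`.

The groups of the points of `J` and `A` over algebraically closed fields, the cocycles and `Ш(A)` are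
defined in `Pool.Agent.Y723.SJ.Def` and `Pool.Agent.Q8.JS.Def`.
-/

set_option autoImplicit false

namespace Pool.Agent.Results.MP_a43263_nt.QuotientsOfJacobians

open Finset Filter Topology Pool.Agent.Q8.JS

/-- the tuples of distinct integers of absolute value at most `X` -/
def Fam (g X : ℕ) : Set (Fin (2 * g + 1) → ℤ) := {a | Function.Injective a ∧ ∀ i, |a i| ≤ X}

/-- The vectors of `C` have sum zero: then the classes `∑ w i • P_i`, `w ∈ C`, form a subgroup of
`J[2]` isomorphic to `C`. -/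
def IsEven {g : ℕ} (C : AddSubgroup (Fin (2 * g + 1) → ZMod 2)) : Prop := ∀ w ∈ C, ∑ i, w i = 0

/-- `C` is a maximal isotropic subgroup of `J[2]`: it is its own orthogonal complement for the Weil
pairing `(v, w) ↦ ∑ v i * w i` on the vectors with sum zero. -/
def IsLagrangian {g : ℕ} (C : AddSubgroup (Fin (2 * g + 1) → ZMod 2)) : Prop :=
  ∀ v : Fin (2 * g + 1) → ZMod 2, v ∈ C ↔ ∑ i, v i = 0 ∧ ∀ w ∈ C, ∑ i, v i * w i = 0

/-- the vector with the entries `1` at `i` and `j`, for `i ≠ j` (the class `P_i + P_j`) -/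
def vec {g : ℕ} (i j : Fin (2 * g + 1)) : Fin (2 * g + 1) → ZMod 2 :=
  Pi.single i 1 + Pi.single j 1

/-- the number of the pairs `i < j` such that `P_i + P_j` is not in `C` and is not orthogonal to `C` -/
noncomputable def plus {g : ℕ} (C : AddSubgroup (Fin (2 * g + 1) → ZMod 2)) : ℕ :=
  {c : Fin (2 * g + 1) × Fin (2 * g + 1) |
    c.1 < c.2 ∧ vec c.1 c.2 ∉ C ∧ ∃ w ∈ C, w c.1 + w c.2 = 1}.ncard

/-- the number of the pairs `i < j` such that `P_i + P_j` is orthogonal to `C` -/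
noncomputable def minus {g : ℕ} (C : AddSubgroup (Fin (2 * g + 1) → ZMod 2)) : ℕ :=
  {c : Fin (2 * g + 1) × Fin (2 * g + 1) | c.1 < c.2 ∧ ∀ w ∈ C, w c.1 + w c.2 = 0}.ncard

/-- the constant `κ(C)` -/
noncomputable def κ {g : ℕ} (C : AddSubgroup (Fin (2 * g + 1) → ZMod 2)) : ℝ :=
  (plus C : ℝ) - minus C

/-- The rank of `A(ℚ)`, `A = J / C`, and the Tate-Shafarevich group up to elements of order two are
bounded in terms of `R`: `A(ℚ) / 2 A(ℚ)` has at most `2 ^ R` elements, `2 Ш(A)[2 ^ m]` has for all `m`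
at most `2 ^ (R m)` elements, and if `(ℤ / 2 ^ n) ^ t` embeds in `Ш(A)` for all `n` then `t ≤ R` (so
`Ш(A)` contains `(ℚ_2 / ℤ_2) ^ t` only for `t ≤ R`). -/
def Small {g : ℕ} (R : ℕ) (a : Fin (2 * g + 1) → ℤ) (ha : Function.Injective a)
    (C : AddSubgroup (Fin (2 * g + 1) → ZMod 2)) : Prop :=
  (Finite (Quo ha C) ∧ Nat.card (Quo ha C) ≤ 2 ^ R) ∧
  (∀ m : ℕ, {y : Sha ha C | ∃ x : Sha ha C, 2 ^ m • x = 0 ∧ y = 2 • x}.Finite ∧
    {y : Sha ha C | ∃ x : Sha ha C, 2 ^ m • x = 0 ∧ y = 2 • x}.ncard ≤ 2 ^ (R * m)) ∧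
  ∀ t : ℕ, (∀ n : ℕ, ∃ f : (Fin t → ZMod (2 ^ n)) →+ Sha ha C, Function.Injective f) → t ≤ R

/-- `(ℤ / 2) ^ k` embeds in `Ш(A)`, `A = J / C`, for some `k ≥ x` -/
def Large {g : ℕ} (x : ℝ) (a : Fin (2 * g + 1) → ℤ) (ha : Function.Injective a)
    (C : AddSubgroup (Fin (2 * g + 1) → ZMod 2)) : Prop :=
  ∃ k : ℕ, x ≤ k ∧ ∃ f : (Fin k → ZMod 2) →+ Sha ha C, Function.Injective f

lemma Fam_eq (g X : ℕ) :
    Fam g X = (Pool.Agent.Y723.JG.Fm (2 * g + 1) X : Set (Fin (2 * g + 1) → ℤ)) := by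
  classical
  ext a
  unfold Fam Pool.Agent.Y723.JG.Fm
  rw [Set.mem_ofPred_eq, mem_coe, mem_filter, Pool.Agent.TH344.JG.BadAux.mem_box, and_comm]
  simp only [mem_Icc, abs_le]

lemma Fam_ncard (g X : ℕ) : (Fam g X).ncard = (Pool.Agent.Y723.JG.Fm (2 * g + 1) X).card := by
  rw [Fam_eq, Set.ncard_coe_finset]

lemma plus_eq {g : ℕ} (C : AddSubgroup (Fin (2 * g + 1) → ZMod 2)) :
    plus C = (Pool.Agent.Q8.JC.Outs C).card := by
  unfold plus
  rw [← Set.ncard_coe_finset]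
  congr 1
  ext c
  exact Pool.Agent.Q8.JC.mem_Outs.symm

lemma minus_eq {g : ℕ} (C : AddSubgroup (Fin (2 * g + 1) → ZMod 2)) :
    minus C = (Pool.Agent.Q8.JC.Perps C).card := by
  unfold minus
  rw [← Set.ncard_coe_finset]
  congr 1
  ext c
  exact Pool.Agent.Q8.JC.mem_Perps.symm

/-- **Theorem.** Let `g ≥ 1`. The set `Fam g X` is finite and its number of elements tends to infinity
with `X`. If `C` is maximal isotropic then `κ(C) ≥ g (2 g - 1)`. For every `ε > 0` there are `R` and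
`X₀` such that for all `X ≥ X₀` all the tuples `a` in `Fam g X`, with at most `ε #(Fam g X)`
exceptions, have the following property: for all the subgroups `C` of `J[2]` and `A = J / C`, the
group `A(ℚ) / 2 A(ℚ)` has at most `2 ^ R` elements, `2 Ш(A)[2 ^ m]` has at most `2 ^ (R m)` elements
for all `m`, the corank of `Ш(A)[2^∞]` is at most `R`, and `(ℤ / 2) ^ k` embeds in `Ш(A)` for some
`k ≥ (κ(C) - ε) log log X`. -/
theorem result (g : ℕ) (hg : 1 ≤ g) :
    (∀ X : ℕ, (Fam g X).Finite) ∧ Tendsto (fun X : ℕ => (Fam g X).ncard) atTop atTop ∧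
    (∀ C : AddSubgroup (Fin (2 * g + 1) → ZMod 2), IsLagrangian C →
      (g : ℝ) * (2 * g - 1) ≤ κ C) ∧
    ∀ ε : ℝ, 0 < ε → ∃ R X₀ : ℕ, ∀ X : ℕ, X₀ ≤ X →
      (({a ∈ Fam g X | ¬ ∀ (ha : Function.Injective a)
        (C : AddSubgroup (Fin (2 * g + 1) → ZMod 2)), IsEven C →
          Small R a ha C ∧ Large ((κ C - ε) * Real.log (Real.log X)) a ha C}).ncard : ℝ) ≤
      ε * (Fam g X).ncard := by
  classical
  refine ⟨fun X => by rw [Fam_eq]; exact finite_toSet _, ?_, fun C hC => ?_, fun ε hε => ?_⟩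
  · simp only [Fam_ncard]
    obtain ⟨X0, h⟩ := Pool.Agent.Y723.JG.Fm_card (2 * g + 1) (by omega)
    refine tendsto_atTop_mono' atTop ?_ tendsto_id
    filter_upwards [eventually_ge_atTop X0, eventually_ge_atTop 1] with X h1 h2
    have h3 : (X : ℝ) ^ (2 * g + 1) ≤ (Pool.Agent.Y723.JG.Fm (2 * g + 1) X).card := h X h1
    have h4 : (X : ℝ) ≤ (X : ℝ) ^ (2 * g + 1) := by
      have h5 : (1 : ℝ) ≤ X := by exact_mod_cast h2
      calc (X : ℝ) = (X : ℝ) ^ 1 := (pow_one _).symm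
        _ ≤ _ := pow_le_pow_right₀ h5 (by omega)
    have h6 : (X : ℝ) ≤ ((Pool.Agent.Y723.JG.Fm (2 * g + 1) X).card : ℝ) := h4.trans h3
    exact_mod_cast h6
  · have h1 : minus C + g * (2 * g - 1) ≤ plus C := by
      rw [plus_eq, minus_eq]
      exact Pool.Agent.Q8.JC.lag hC
    have h2 : ((minus C + g * (2 * g - 1) : ℕ) : ℝ) ≤ plus C := by exact_mod_cast h1
    rw [Nat.cast_add, Nat.cast_mul, Nat.cast_sub (by omega), Nat.cast_mul, Nat.cast_one,
      Nat.cast_ofNat] at h2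
    unfold κ
    linarith
  · set N : ℝ := 2 * (2 * g + 1) ^ 2 with hN
    have hN0 : 0 < N := by positivity
    obtain ⟨R, X₁, h1⟩ := Pool.Agent.Q8.JC.count g hg (ε / (2 * N)) ε (by positivity) hε
    obtain ⟨X₂, h2⟩ := (Pool.Agent.Q8.JC.ll_tendsto.eventually_ge_atTop
      ((2 / ε) * ((2 * g + 2) * R + 2 * (2 * g + 1)))).exists_forall_of_atTop
    refine ⟨2 * R + 2 * g + 1, X₁ + X₂, fun X hX => ?_⟩
    have h3 := h1 X (by omega)
    have h4 := h2 X (by omega)
    rw [Fam_ncard]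
    refine le_trans ?_ h3
    rw [Nat.cast_le, ← Set.ncard_coe_finset]
    refine Set.ncard_le_ncard (fun a ha => ?_) (finite_toSet _)
    obtain ⟨ha1, ha2⟩ := ha
    rw [Fam_eq] at ha1
    rw [mem_coe, mem_filter]
    refine ⟨ha1, fun hcon => ha2 fun ha C hC => ?_⟩
    obtain ⟨e1, e2, e3⟩ := hcon
    have hfin := Pool.Agent.Y723.JG.selJ_fin ⟨g, rfl⟩ ha
    have hl : 0 ≤ Real.log (Real.log X) := le_trans (by positivity) h4
    have e4 : (Pool.Agent.TH344.JG.SelJ a).ncard ≤ 2 ^ (2 * R + 2 * g + 1) :=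
      e1.trans (Nat.pow_le_pow_right (by norm_num) (by omega))
    refine ⟨⟨quo_le ha C hfin e1, two_sha ha C hfin e4, cork_le ha C hfin e4⟩, ?_⟩
    obtain ⟨k, k1, k2⟩ := Pool.Agent.Q8.JC.one_curve (C := C) hg ha hC e1 e2 (δ := ε / (2 * N))
      (l := Real.log (Real.log X)) (by positivity) hl e3
    refine ⟨k, le_trans ?_ k1, emb ha C k2⟩
    have h5 : N * (ε / (2 * N)) = ε / 2 := by field_simp
    have h6 : ((2 * g + 2) * R + 2 * (2 * g + 1) : ℝ) ≤ ε / 2 * Real.log (Real.log X) := by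
      have h7 := mul_le_mul_of_nonneg_left h4 (by positivity : 0 ≤ ε / 2)
      rw [← mul_assoc] at h7
      have h8 : ε / 2 * (2 / ε) = 1 := by field_simp
      rw [h8, one_mul] at h7
      exact h7
    rw [← hN, h5]
    have h7 : κ C = (Pool.Agent.Q8.JC.Outs C).card - (Pool.Agent.Q8.JC.Perps C).card := by
      unfold κ
      rw [plus_eq, minus_eq]
    rw [h7]
    linarith

end Pool.Agent.Results.MP_a43263_nt.QuotientsOfJacobians
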